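import Pool.Agent.H29.BH.Targets1
import Pool.Agent.H23.BG.TargetsL

/-!
# Board bh_modules, module F_3: the complete sum modulo an ideal
-/

set_option autoImplicit false

open NumberField UniqueFactorizationMonoid

namespace Pool.Agent.H33.BH

open Pool.Agent.H23.BG Pool.Agent.H23.LB Pool.Agent.H29.BH
open Pool.Agent.H29.TC (dvs LC MC)

private lemma sup_mul' {R : Type} [CommRing R] {f g x : Ideal R} (h : f ⊔ g = ⊤) :
    f * g ⊔ x = (f ⊔ x) * (g ⊔ x) := by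
  have h1 : x * f ⊔ x * g = x := by
    rw [← Ideal.mul_sup, h, Ideal.mul_top]
  rw [Ideal.sup_mul, Ideal.mul_sup, Ideal.mul_sup, mul_comm f x]
  apply le_antisymm
  · refine sup_le (le_sup_of_le_left le_sup_left) ?_
    calc x = x * f ⊔ x * g := h1.symm
      _ ≤ _ := sup_le (le_sup_of_le_left le_sup_right) (le_sup_of_le_right le_sup_left)
  · refine sup_le (sup_le le_sup_left (le_sup_of_le_right Ideal.mul_le_left)) ?_
    exact sup_le (le_sup_of_le_right Ideal.mul_le_left) (le_sup_of_le_right Ideal.mul_le_left)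

private lemma bd_mul {A N T G x A' N' T' G' x' : ℝ} (hx : 0 ≤ x) (hx' : 0 ≤ x')
    (h : Bd2 A N T G x) (h' : Bd2 A' N' T' G' x') :
    Bd2 (A * A') (N * N') (T * T') (G * G') (x * x') := by
  obtain ⟨h1, h2⟩ := h
  obtain ⟨g1, g2⟩ := h'
  have hb : ∀ {u u' v v' : ℝ}, 0 ≤ u → 0 ≤ u' → u ≤ v → u' ≤ v' → u * u' ≤ v * v' :=
    fun hu hu' h1 h2 => mul_le_mul h1 h2 hu' (hu.trans h1)
  refine ⟨hb hx hx' h1 g1, ?_⟩
  have := hb (pow_nonneg hx 2) (pow_nonneg hx' 2) h2 g2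
  calc (x * x') ^ 2 = x ^ 2 * x' ^ 2 := by ring
    _ ≤ _ := this
    _ = _ := by ring

private lemma bd_mono {A B N T G x : ℝ} (hA : 0 ≤ A) (hN : 0 ≤ N) (hT : 0 ≤ T) (hG : 0 ≤ G)
    (hAB : A ≤ B) (h : Bd2 A N T G x) : Bd2 B N T G x := by
  obtain ⟨h1, h2⟩ := h
  refine ⟨h1, h2.trans ?_⟩
  gcongr

/-- the statement of the induction -/
private def GS (K : Type) [Field K] [NumberField K] (n : ℕ) (f : Ideal (𝓞 K)) : Prop :=
  f ≠ ⊥ → ∃ S : Finset (Ideal (𝓞 K)), (∀ P ∈ S, P.IsPrime ∧ f ≤ P) ∧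
    ∀ [Fintype (𝓞 K ⧸ f)] (η : 𝓞 K ⧸ f → ℂ), LC f η → ∀ a : Fin 4 → 𝓞 K,
      Bd2 (∏ P ∈ S, Ac K n P) (Nf K f) (cT f a) (cG f a)
      ‖c4 η (fun i => Ideal.Quotient.mk f (a i))‖

private lemma ac_nn {K : Type} [Field K] [NumberField K] (n : ℕ) (P : Ideal (𝓞 K)) :
    0 ≤ Ac K n P := by
  unfold Ac
  split_ifs <;> positivity

private lemma nf_nn {K : Type} [Field K] [NumberField K] (P : Ideal (𝓞 K)) :
    0 ≤ Nf K P := by
  unfold Nf
  positivity

private lemma nf_mul {K : Type} [Field K] [NumberField K] (I J : Ideal (𝓞 K)) :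
    Nf K (I * J) = Nf K I * Nf K J := by
  unfold Nf
  rw [map_mul, Nat.cast_mul]

private lemma gs_top (K : Type) [Field K] [NumberField K] (n : ℕ) : GS K n ⊤ := by
  intro _
  refine ⟨∅, by simp, ?_⟩
  intro _ η hη a
  have hN : Nf K (⊤ : Ideal (𝓞 K)) = 1 := by
    unfold Nf
    rw [Ideal.absNorm_top]
    simp
  have hs : Subsingleton (𝓞 K ⧸ (⊤ : Ideal (𝓞 K))) := inferInstance
  have he : ∀ x, η x = 1 := fun x => by
    rw [← hη.mc.one]
    exact congrArg η (Subsingleton.elim _ _)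
  have hc : c4 η (fun i => Ideal.Quotient.mk (⊤ : Ideal (𝓞 K)) (a i)) = 1 := by
    unfold c4
    rw [Fintype.sum_subsingleton _ 0]
    simp [he]
  rw [hc]
  unfold cT cG
  simp only [top_sup_eq, hN, Finset.prod_empty, norm_one]
  refine ⟨le_refl _, ?_⟩
  norm_num

private lemma gs_cop {K : Type} [Field K] [NumberField K] {f g : Ideal (𝓞 K)}
    (h : IsRelPrime f g) : f ⊔ g = ⊤ := by
  rw [← Ideal.isUnit_iff]
  exact h (Ideal.dvd_iff_le.2 le_sup_left) (Ideal.dvd_iff_le.2 le_sup_right)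

private lemma cT_mul {K : Type} [Field K] [NumberField K] {f g : Ideal (𝓞 K)} (h : f ⊔ g = ⊤)
    (a : Fin 4 → 𝓞 K) : cT (f * g) a = cT f a * cT g a := by
  unfold cT
  rw [sup_mul' h, sup_mul' h, sup_mul' h, sup_mul' h, nf_mul, nf_mul, nf_mul, nf_mul]
  ring

private lemma cG_mul {K : Type} [Field K] [NumberField K] {f g : Ideal (𝓞 K)} (h : f ⊔ g = ⊤)
    (a : Fin 4 → 𝓞 K) : cG (f * g) a = cG f a * cG g a := by
  unfold cG
  rw [sup_assoc, sup_assoc, sup_assoc, sup_mul' h, nf_mul]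

private lemma cT_nn {K : Type} [Field K] [NumberField K] (f : Ideal (𝓞 K)) (a : Fin 4 → 𝓞 K) :
    0 ≤ cT f a :=
  mul_nonneg (mul_nonneg (mul_nonneg (nf_nn _) (nf_nn _)) (nf_nn _)) (nf_nn _)

private lemma gs_prod (hCR : L_CR) (K : Type) [Field K] [NumberField K] (n : ℕ)
    {f g : Ideal (𝓞 K)} (hfg : f ⊔ g = ⊤) (h1 : GS K n f) (h2 : GS K n g) : GS K n (f * g) := by
  classical
  intro hne
  have hf : f ≠ ⊥ := by rintro rfl; simp at hne
  have hg : g ≠ ⊥ := by rintro rfl; simp at hne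
  obtain ⟨S, hS, HS⟩ := h1 hf
  obtain ⟨T, hT, HT⟩ := h2 hg
  refine ⟨S ∪ T, ?_, ?_⟩
  · intro P hP
    rcases Finset.mem_union.1 hP with h | h
    · exact ⟨(hS P h).1, Ideal.mul_le_left.trans (hS P h).2⟩
    · exact ⟨(hT P h).1, Ideal.mul_le_right.trans (hT P h).2⟩
  · intro _ η hη a
    have : Fintype (𝓞 K ⧸ f) := @Fintype.ofFinite _ (Ideal.finiteQuotientOfFreeOfNeBot f hf)
    have : Fintype (𝓞 K ⧸ g) := @Fintype.ofFinite _ (Ideal.finiteQuotientOfFreeOfNeBot g hg)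
    obtain ⟨η₁, η₂, l1, l2, hc⟩ := hCR K f g hf hg hfg η hη
    have hd : Disjoint S T := by
      rw [Finset.disjoint_left]
      intro P h3 h4
      have h5 : f ⊔ g ≤ P := sup_le (hS P h3).2 (hT P h4).2
      rw [hfg, top_le_iff] at h5
      exact (hS P h3).1.ne_top h5
    rw [Finset.prod_union hd, hc a, norm_mul, cT_mul hfg, cG_mul hfg, nf_mul]
    exact bd_mul (norm_nonneg _) (norm_nonneg _) (HS η₁ l1 a) (HT η₂ l2 a)

private lemma gs_pow (hL1 : F_1) (hL2 : F_2) (K : Type) [Field K] [NumberField K] (n : ℕ)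
    (hn : Module.finrank ℚ K = n) {P : Ideal (𝓞 K)} (i : ℕ) (hP : Prime P) : GS K n (P ^ i) := by
  have hPp : P.IsPrime := Ideal.isPrime_of_prime hP
  have hPb : P ≠ ⊥ := hP.ne_zero
  rcases Nat.lt_or_ge i 1 with h0 | h1
  · have : i = 0 := by omega
    subst this
    rw [pow_zero, Ideal.one_eq_top]
    exact gs_top K n
  · intro _
    refine ⟨{P}, ?_, ?_⟩
    · intro Q hQ
      rw [Finset.mem_singleton] at hQ
      subst hQ
      exact ⟨hPp, Ideal.pow_le_self (by omega)⟩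
    · intro _ η hη a
      rw [Finset.prod_singleton]
      rcases Nat.lt_or_ge i 2 with h2 | h2
      · have : i = 1 := by omega
        subst this
        exact hL1 n K hn P hPp hPb η hη a
      · exact hL2 n K hn P hPp hPb i h2 η hη a

private lemma gs_all (hL1 : F_1) (hL2 : F_2) (hCR : L_CR) (K : Type) [Field K]
    [NumberField K] (n : ℕ) (hn : Module.finrank ℚ K = n) (f : Ideal (𝓞 K)) : GS K n f := by
  refine induction_on_coprime f ?_ ?_ ?_ ?_
  · intro h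
    exact absurd rfl h
  · intro x hx
    rw [Ideal.isUnit_iff.1 hx]
    exact gs_top K n
  · intro p i hp
    exact gs_pow hL1 hL2 K n hn i hp
  · intro x y hxy h1 h2
    exact gs_prod hCR K n (gs_cop hxy) h1 h2

/-- The complete sum modulo an ideal. -/
theorem pf_F_3 (h1 : F_1) (h2 : F_2) (hCR : L_CR) (hAC : L_AC) : F_3 := by
  intro n K _ _ hn f hf _ η hη a
  obtain ⟨S, hS, HS⟩ := gs_all h1 h2 hCR K n hn f hf
  exact bd_mono (Finset.prod_nonneg fun P _ => ac_nn n P) (nf_nn f) (cT_nn f a) (nf_nn _)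
    (hAC n K hn f S hf hS) (HS η hη a)

end Pool.Agent.H33.BH
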