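import Pool.Agent.H29.BH.Targets2
import Pool.Agent.H60.GLB.OG

/-!
# Board bh_modules, module N_SH: the shift
-/

set_option autoImplicit false

open NumberField NumberField.InfinitePlace NumberField.Units
  NumberField.Units.dirichletUnitTheorem MeasureTheory Set Filter Complex
open scoped nonZeroDivisors ENNReal

namespace Pool.Agent.H33.BH

open Pool.Agent.H25.HK Pool.Agent.H23.LB Pool.Agent.H23.LC Pool.Agent.H29.BH
open Pool.Agent.H28.RC (Rep ft idl)

section

variable {K : Type} [Field K] [NumberField K]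

omit [NumberField K] in
private lemma coe_mem {a : Ideal (𝓞 K)} {α : 𝓞 K} (hα : α ∈ a) : (α : K) ∈ (a : FI K) :=
  FractionalIdeal.mem_coeIdeal_of_mem _ hα

omit [NumberField K] in
private lemma fi_add {M : FI K} {x y : K} (hx : x ∈ M) (hy : y ∈ M) : x + y ∈ M :=
  Submodule.add_mem M.coeToSubmodule hx hy

omit [NumberField K] in
private lemma fi_sub {M : FI K} {x y : K} (hx : x ∈ M) (hy : y ∈ M) : x - y ∈ M :=
  Submodule.sub_mem M.coeToSubmodule hx hy

private lemma le_mul (j : Ideal (𝓞 K)) (M : FI K) : (j : FI K) * M ≤ M := by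
  calc (j : FI K) * M ≤ 1 * M := by
        gcongr
        exact FractionalIdeal.coeIdeal_le_one
    _ = M := one_mul M

/-- the points of `V` and of `L` give the points of `a⁻¹ L` -/
private noncomputable def eqv (M L : FI K) (V : Finset K)
    (h1 : ∀ w ∈ V, w ∈ M) (h2 : L ≤ M) (h3 : ∀ x ∈ M, ∃ w ∈ V, x - w ∈ L)
    (h4 : ∀ w ∈ V, ∀ w' ∈ V, w - w' ∈ L → w = w') :
    V × {x : K // x ∈ L} ≃ {x : K // x ∈ M} :=
  Equiv.ofBijective (fun p => ⟨p.2.1 + p.1.1, fi_add (h2 p.2.2) (h1 _ p.1.2)⟩) <| by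
    constructor
    · rintro ⟨⟨w, hw⟩, ⟨x, hx⟩⟩ ⟨⟨w', hw'⟩, ⟨x', hx'⟩⟩ h
      have h5 : x + w = x' + w' := congrArg Subtype.val h
      have h6 : w = w' := by
        apply h4 w hw w' hw'
        have h7 : w - w' = x' - x := by linear_combination h5
        rw [h7]
        exact fi_sub hx' hx
      subst h6
      have h8 : x = x' := by linear_combination h5
      subst h8
      rfl
    · rintro ⟨x, hx⟩
      obtain ⟨w, hw, h5⟩ := h3 x hx
      exact ⟨(⟨w, hw⟩, ⟨x - w, h5⟩), Subtype.ext (by simp)⟩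

end

/-- The shift. -/
theorem pf_N_SH (hCG : U_CG) : N_SH := by
  classical
  intro K _ _ f a hf ha haf χ L V G hL hV hfin
  have hID : Pool.Agent.H28.RC.T_ID := Pool.Agent.H92.RC.pf_ID
  have haK : (a : FI K) ≠ 0 := FractionalIdeal.coeIdeal_ne_zero.2 ha
  set M : FI K := (a : FI K)⁻¹ * L with hMdef
  have hM : M ≠ 0 := mul_ne_zero (inv_ne_zero haK) hL
  have haM : (a : FI K) * M = L := by
    rw [hMdef, ← mul_assoc, mul_inv_cancel₀ haK, one_mul]
  have hafM : (a : FI K) * ((f : FI K) * M) = (f : FI K) * L := by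
    rw [mul_left_comm, haM]
  have hLM : L ≤ M := by
    rw [← haM]
    exact le_mul a M
  have hfM : (f : FI K) * M ≤ M := le_mul f M
  obtain ⟨α, hα, β, hβ, hαβ⟩ : ∃ α ∈ a, ∃ β ∈ f, α + β = 1 := by
    have h1 : (1 : 𝓞 K) ∈ a ⊔ f := by
      rw [haf]
      exact Submodule.mem_top
    exact Submodule.mem_sup.1 h1
  have hαβK : (α : K) + (β : K) = 1 := by
    have h := congrArg (fun t : 𝓞 K => (t : K)) hαβ
    simpa using h
  have hdec : ∀ x : K, x = (α : K) * x + (β : K) * x := fun x => by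
    rw [← add_mul, hαβK, one_mul]
  -- the decomposition
  have h1 : ∀ w ∈ V, w ∈ M := fun w hw => hfM (hV.1 w hw)
  have h3 : ∀ x ∈ M, ∃ w ∈ V, x - w ∈ L := by
    intro x hx
    have hu : (β : K) * x ∈ (f : FI K) * M := FractionalIdeal.mul_mem_mul (coe_mem hβ) hx
    have hl : (α : K) * x ∈ L := by
      rw [← haM]
      exact FractionalIdeal.mul_mem_mul (coe_mem hα) hx
    obtain ⟨w, ⟨hw, hw2⟩, -⟩ := hV.2 _ hu
    refine ⟨w, hw, ?_⟩
    have h5 : x - w = (α : K) * x + ((β : K) * x - w) := by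
      rw [← add_sub_assoc, ← hdec x]
    rw [h5]
    refine fi_add hl ?_
    rw [hafM] at hw2
    exact le_mul f L hw2
  have h4 : ∀ w ∈ V, ∀ w' ∈ V, w - w' ∈ L → w = w' := by
    intro w hw w' hw' hd
    have h5 : w - w' ∈ (f : FI K) * M := fi_sub (hV.1 w hw) (hV.1 w' hw')
    have h6 : w - w' ∈ (a : FI K) * ((f : FI K) * M) := by
      rw [hdec (w - w')]
      refine fi_add (FractionalIdeal.mul_mem_mul (coe_mem hα) h5) ?_
      rw [hafM]
      exact FractionalIdeal.mul_mem_mul (coe_mem hβ) hd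
    have h7 : w - w ∈ (a : FI K) * ((f : FI K) * M) := by
      rw [sub_self]
      exact FractionalIdeal.zero_mem _
    exact (hV.2 w (hV.1 w hw)).unique ⟨hw, h7⟩ ⟨hw', h6⟩
  set e := eqv M L V h1 hLM h3 h4 with he
  have hev : ∀ p, (e p).1 = p.2.1 + p.1.1 := fun p => rfl
  -- the coefficients
  have hcg : ∀ w ∈ V, ∀ x ∈ L, cg χ M (x + w) = χ.ψ a * cg χ L x := by
    intro w hw x hx
    rw [(hCG K f χ M hf hM).2.2.2.1 x (hLM hx) w (hV.1 w hw)]
    have h5 := Pool.Agent.H60.GLB.cgh_J hID hCG hf χ hM ha (x := x) (by rw [haM]; exact hx)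
    rw [haM] at h5
    exact h5
  -- the sum
  set F : {x : K // x ∈ M} → ℂ := fun x => cg χ M x * G x with hF
  have hFfin : (Function.support F).Finite := by
    refine Set.Finite.of_finite_image (f := Subtype.val) (hfin.subset ?_)
      Subtype.val_injective.injOn
    rintro _ ⟨x, hx, rfl⟩
    refine ⟨x.2, fun h => hx ?_⟩
    simp only [hF, h, mul_zero]
  have hFs : Summable F := summable_of_hasFiniteSupport hFfin
  have hFe : Summable (fun c => F (e c)) := (Equiv.summable_iff e).2 hFs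
  rw [← Equiv.tsum_eq e F, Summable.tsum_prod hFe, tsum_fintype, Finset.mul_sum,
    ← Finset.sum_coe_sort V]
  refine Finset.sum_congr rfl fun w _ => ?_
  rw [← tsum_mul_left]
  refine tsum_congr fun x => ?_
  change cg χ M (x.1 + w.1) * G (x.1 + w.1) = _
  rw [hcg w.1 w.2 x.1 x.2]
  ring

end Pool.Agent.H33.BH
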